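import Pool.Agent.Q12.Iso.Exi
import Pool.Agent.Q12.Iso.Zorn
import Pool.Agent.Q12.Iso.Supp
import Pool.Agent.Q12.Iso.Asm

/-!
# Isometric extensions over an intermediate W*-dynamical system

The definitions are in `Pool/Agent/Q12/Iso/Def.lean`:

* `Sys H`: a von Neumann algebra `A` on the Hilbert space `H`, a unit vector `Ω` which is cyclic and
  separating and defines a trace, a `*`-automorphism `α` preserving it, the unitary `U` with
  `U (a Ω) = α(a) Ω` and the conjugate-linear isometry `J` with `J (a Ω) = a* Ω`;
* `Sub`: a von Neumann subalgebra `F` with `α(F) = F`;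
* `HF`, `e`: the closure of `F Ω` and its projection; `basic`: the bicommutant of `A ∪ {e_F}`;
* `IsMuBar F τ`: `τ` is a faithful normal semifinite trace on the positive cone of the basic
  construction with `τ(a e_F a*) = μ(a a*)`;
* `UModule F τ V`: `V` is closed, `J f* J V ⊆ V` for `f ∈ F`, `V ⊥ H_F`, `U V = V` and
  `τ(P_V) < ∞`;
* `Isometric F τ`: the closed span of all such modules is the orthogonal complement of `H_F`.
-/

namespace Pool.Agent.Results.MP_286868_an.Intermediate

open Pool.Agent.Q12.Iso
open scoped InnerProductSpace ComplexOrder ENNReal NNReal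

universe u

/-- **Q1, answered positively** (`P_main`, in `Def.lean`): if `A` is an isometric extension of `F`
and `F ⊆ G ⊆ A`, then `A` is an isometric extension of `G`.  (The unitary `U` and the modular
conjugation `J` of a system are determined by `(A, Ω, α)` and always exist: `exists_UJ`.) -/
theorem result : P_main.{u} :=
  main graph zorn super Pool.Agent.Q12.Iso.sub

end Pool.Agent.Results.MP_286868_an.Intermediate
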